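import Pool.Agent.H207.TF.Stm2

/-!
# Project TF (helper207), task GOODX (helper353): good values
-/

set_option autoImplicit false

open Metric Set MeasureTheory Filter Topology Polynomial
open scoped OnePoint ENNReal

namespace Pool.Agent.H353.TF207.GOODX

open Pool.Agent.H792R2.CE Pool.Agent.H211.LR Pool.Agent.H211.AD Pool.Agent.H207.TF

/-- GOODX -/
theorem t_GOODX : Pool.Agent.H207.TF.S_GOODX := by
  intro P Q d hd hPQ hPd hQd hN α v hαn
  have hker := D3a_kernel
  have hgood := D3b_ae (v := v) hαn hker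
  have hNfin : {z : ℂ | (wr P Q).eval z = 0}.Finite := by
    refine ((wr P Q).roots.toFinset.finite_toSet).subset ?_
    intro z hz
    simp only [Finset.mem_coe, Multiset.mem_toFinset, Polynomial.mem_roots hN]
    exact hz
  have hnotboth : ∀ w, Q.eval w = 0 → P.eval w ≠ 0 := by
    intro w h1 h2
    obtain ⟨a, b, hab⟩ := hPQ
    have := congrArg (Polynomial.eval w) hab
    simp [h1, h2] at this
  have hlead : Q.coeff d ≠ 0 := by
    intro h0
    have h1 : Q.leadingCoeff = 0 := by rw [Polynomial.leadingCoeff, hQd]; exact h0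
    rw [Polynomial.leadingCoeff_eq_zero] at h1
    rw [h1] at hQd
    simp at hQd
    omega
  have hx1 : ∀ᵐ x : ℂ, x ∉ ({P.coeff d / Q.coeff d} : Set ℂ) ∪
      rf P Q '' {z : ℂ | (wr P Q).eval z = 0} ∪ Set.range v ∪ rf P Q '' Set.range v := by
    have h1 : (({P.coeff d / Q.coeff d} : Set ℂ) ∪ rf P Q '' {z : ℂ | (wr P Q).eval z = 0} ∪
      Set.range v ∪ rf P Q '' Set.range v).Countable :=
      (((Set.countable_singleton _).union (hNfin.image _).countable).union
        (Set.countable_range v)).union ((Set.countable_range v).image _)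
    exact h1.ae_notMem volume
  have hx2 : ∀ᵐ x : ℂ, x ∉ rf P Q '' ({w : ℂ | ¬ Summable fun j => ‖α j / (w - v j)‖} ∩
      {w | Q.eval w ≠ 0}) := by
    have h1 : volume (rf P Q '' ({w : ℂ | ¬ Summable fun j => ‖α j / (w - v j)‖} ∩
      {w | Q.eval w ≠ 0})) = 0 := by
      refine addHaar_image_eq_zero_of_differentiableOn_of_addHaar_eq_zero volume ?_ ?_
      · intro w hw
        exact ((rf_hasDerivAt hw.2).differentiableAt.restrictScalars ℝ).differentiableWithinAt
      · exact measure_mono_null Set.inter_subset_left (ae_iff.1 hgood)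
    exact measure_eq_zero_iff_ae_notMem.1 h1
  filter_upwards [hgood, hx1, hx2] with x hx hx1 hx2
  have hxz : x ≠ P.coeff d / Q.coeff d := fun h => hx1 (Or.inl (Or.inl (Or.inl h)))
  have hxc : ∀ w, (wr P Q).eval w = 0 → rf P Q w ≠ x := fun w hw h =>
    hx1 (Or.inl (Or.inl (Or.inr ⟨w, hw, h⟩)))
  have hxv : ∀ j, x ≠ v j := fun j h => hx1 (Or.inl (Or.inr ⟨j, h.symm⟩))
  have hxf : ∀ j, rf P Q (v j) ≠ x := fun j h => hx1 (Or.inr ⟨v j, ⟨j, rfl⟩, h⟩)
  have hroot : ∀ w, (P - C x * Q).eval w = 0 → Q.eval w ≠ 0 ∧ rf P Q w = x := by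
    intro w hw
    simp only [Polynomial.eval_sub, Polynomial.eval_mul, Polynomial.eval_C] at hw
    have hQw : Q.eval w ≠ 0 := by
      intro h0
      rw [h0, mul_zero, sub_zero] at hw
      exact hnotboth w h0 hw
    refine ⟨hQw, ?_⟩
    rw [rf, div_eq_iff hQw]
    exact sub_eq_zero.1 hw
  have hdeg : (P - C x * Q).natDegree = d := by
    refine le_antisymm ?_ (Polynomial.le_natDegree_of_ne_zero ?_)
    · refine (Polynomial.natDegree_sub_le _ _).trans (max_le hPd ?_)
      exact (Polynomial.natDegree_C_mul_le _ _).trans hQd.le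
    · rw [Polynomial.coeff_sub, Polynomial.coeff_C_mul, sub_ne_zero]
      intro h
      apply hxz
      rw [eq_div_iff hlead]
      exact h.symm
  have hx0 : P - C x * Q ≠ 0 := by
    intro h
    rw [h] at hdeg
    simp at hdeg
    omega
  refine ⟨hdeg, hx0, ?_, hxv, hx, ?_⟩
  · intro w hw
    obtain ⟨h1, h2⟩ := hroot w hw
    exact ⟨fun h0 => hxc w h0 h2, h1, h2⟩
  · intro w hw
    obtain ⟨h1, h2⟩ := hroot w hw
    refine ⟨?_, ?_⟩
    · rintro j rfl
      exact hxf j h2
    · by_contra h3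
      exact hx2 ⟨w, ⟨h3, h1⟩, h2⟩

end Pool.Agent.H353.TF207.GOODX
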